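import Pool.Agent.H56.DW.BP
import Pool.Agent.H29.DW.QWa

/-!
# BQ: the bound for the dual sum
-/

set_option autoImplicit false

open NumberField NumberField.InfinitePlace NumberField.Units
  NumberField.Units.dirichletUnitTheorem MeasureTheory Set Filter Complex
open scoped nonZeroDivisors ENNReal

namespace Pool.Agent.H56.DW

open Pool.Agent.H25.HK Pool.Agent.H23.LB Pool.Agent.H23.LC Pool.Agent.H29.DW
open Pool.Agent.H28.RC (Rep ft idl)
open Pool.Agent.H29.TC (GK fk_le dvs cq LC Gn cr)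

section

variable {K : Type} [Field K] [NumberField K]

theorem trace_one (M : FI K) (hM : M ≠ 0) {r y : K} (hr : r ∈ M) (hy : y ∈ du K M) :
    cexp (2 * Real.pi * I * ((Algebra.trace ℚ K (r * y) : ℚ) : ℂ)) = 1 := by
  unfold du at hy
  rw [FractionalIdeal.mem_dual hM] at hy
  obtain ⟨m, hm⟩ := hy r hr
  have h2 : ((m : ℤ) : ℚ) = Algebra.trace ℚ K (r * y) := by
    rw [mul_comm r y]
    simpa [Algebra.traceForm_apply] using hm
  rw [← h2, Complex.exp_eq_one_iff]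
  refine ⟨m, ?_⟩
  push_cast
  ring

theorem norm_ft_le (X : Finset K) (c : K → ℂ) (h : ∀ r ∈ X, ‖c r‖ ≤ 1) (y : K) :
    ‖ft K X c y‖ ≤ X.card := by
  unfold ft
  refine (norm_sum_le _ _).trans ?_
  rw [Finset.card_eq_sum_ones, Nat.cast_sum]
  refine Finset.sum_le_sum fun r hr => ?_
  have e : (2 * Real.pi * I * ((Algebra.trace ℚ K (r * y) : ℚ) : ℂ)) =
      ((2 * Real.pi * ((Algebra.trace ℚ K (r * y) : ℚ) : ℝ) : ℝ) : ℂ) * I := by
    push_cast
    ring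
  rw [norm_mul, e, Complex.norm_exp_ofReal_mul_I, mul_one, Nat.cast_one]
  exact h r hr

theorem mem_top_mul {J : Ideal (𝓞 K)} (hJ : J = ⊤) (M : FI K) {r : K} (hr : r ∈ M) :
    r ∈ (J : FI K) * M := by
  subst hJ
  rwa [FractionalIdeal.coeIdeal_top, one_mul]

theorem mul_cancel_rep {M : FI K} {j : Ideal (𝓞 K)} (hj : j = ⊤) {X : Finset K}
    (hX : Rep K j M X) {r s : K} (hr : r ∈ X) (hs : s ∈ X) : r = s := by
  subst hj
  have e : ((⊤ : Ideal (𝓞 K)) : FI K) * M = M := by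
    rw [FractionalIdeal.coeIdeal_top, one_mul]
  obtain ⟨r₀, -, hu⟩ := hX.2 r (hX.1 r hr)
  rw [e] at hu
  have h1 := hu r ⟨hr, sub_mem' (hX.1 r hr) (hX.1 r hr)⟩
  have h2 := hu s ⟨hs, sub_mem' (hX.1 r hr) (hX.1 s hs)⟩
  rw [h1, h2]

/-- the sum over the residue classes -/
theorem ft_split {f j : Ideal (𝓞 K)} {M : FI K} {X X₁ : Finset K} (hX : Rep K f M X)
    (hX₁ : Rep K j M X₁) (c d : K → ℂ) (hcd : ∀ x ∈ M, d x = c x) (y : K) :
    ft K X d y = ∑ r ∈ X₁, ft K X (cr K j M c r) y := by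
  classical
  unfold ft
  rw [Finset.sum_comm]
  refine Finset.sum_congr rfl fun x hx => ?_
  rw [← Finset.sum_mul]
  congr 1
  obtain ⟨r₀, ⟨hr₀, hr₀'⟩, hu⟩ := hX₁.2 x (hX.1 x hx)
  rw [Finset.sum_eq_single r₀]
  · unfold cr ci
    rw [if_pos hr₀', one_mul]
    exact hcd x (hX.1 x hx)
  · intro r hr hne
    unfold cr ci
    rw [if_neg fun h => hne (hu r ⟨hr, h⟩), zero_mul]
  · intro h
    exact absurd hr₀ h

open scoped Classical in
/-- the dual coefficients and functions with bounded correlations -/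
theorem local_dual (hSG : V_SG) (hCC : V_CC) (hCG : U_CG) (hGX : Pool.Agent.H29.TC.T_GX)
    (hDF : Pool.Agent.H29.TC.T_DF) (hTR : Pool.Agent.H29.TC.T_TR) (hRX : Pool.Agent.H28.RC.T_RX)
    (hTH : Pool.Agent.H25.HK.T_TH)
    {l g k : Ideal (𝓞 K)} (h : GM K l g k)
    (χ : HG K (l * (g * k ^ 2))) (hχ : PrG k χ) (D : Sys K (l * (g * k ^ 2))) (i : D.ι)
    (Y : Finset K) (hL : du K (((l * (g * k ^ 2) : Ideal (𝓞 K)) : FI K) * D.M i) ≠ 0)
    (hY : Rep K (l * g) (du K (((l * (g * k ^ 2) : Ideal (𝓞 K)) : FI K) * D.M i)) Y)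
    (hYc : Y.card = Ideal.absNorm (l * g)) :
    ∃ q : K → ℂ, Cor (l * g) k (du K (((l * (g * k ^ 2) : Ideal (𝓞 K)) : FI K) * D.M i)) q
      (dvs K k).card ∧
      ∀ (cp : InfinitePlace K → ℂ) (H : InfinitePlace K → ℝ) (p : InfinitePlace K → ℂ → ℂ)
        (y : InfinitePlace K → ℝ) (ω : InfinitePlace K → ℂ), (∀ v, 1 ≤ H v) →
        (∀ v x, 1 / 16 < ‖x‖ → p v x = 0) → Pos ω →
        ‖∑' x : {x : K // x ∈ du K (((l * (g * k ^ 2) : Ideal (𝓞 K)) : FI K) * D.M i)},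
          ch D χ i x * Wg cp H p x y ω‖ ^ 2 ≤
        (Nf K (l * g) * Nf K (l * (g * k ^ 2))) * ∑ r ∈ Y, ‖Sq (l * g)
          (du K (((l * (g * k ^ 2) : Ideal (𝓞 K)) : FI K) * D.M i)) q r cp H p y ω‖ ^ 2 := by
  have hf := GM.f_ne h
  have hM := D.reps.1 i
  have hfM : ((l * (g * k ^ 2) : Ideal (𝓞 K)) : FI K) * D.M i ≠ 0 :=
    mul_ne_zero (FractionalIdeal.coeIdeal_ne_zero.mpr hf) hM
  have hcg := hCG K _ χ (D.M i) hf hM
  by_cases hk : k = ⊤
  · have hl : l = ⊤ := h.triv hk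
    have hg : g = ⊤ := by
      subst hk
      exact GM.g_top h
    have e1 : l * g = ⊤ := by rw [hl, hg, Ideal.mul_top]
    have e2 : l * (g * k ^ 2) = ⊤ := by
      rw [hl, hg, hk, pow_two, Ideal.mul_top, Ideal.mul_top, Ideal.mul_top]
    have hN1 : Nf K (l * (g * k ^ 2)) = 1 := by
      unfold Nf
      rw [e2, Ideal.absNorm_top, Nat.cast_one]
    refine ⟨fun _ => 1, ?_, ?_⟩
    · have h1 : (dvs K k).card = 1 := by
        rw [hk]
        exact dvs_top hDF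
      rw [e1, h1, Nat.cast_one]
      have h2 := hCC.2 K (du K (((l * (g * k ^ 2) : Ideal (𝓞 K)) : FI K) * D.M i)) hL
      subst hk
      exact h2
    · intro cp H p y ω _ _ _
      -- the representative
      obtain ⟨r₀, ⟨hr₀, -⟩, -⟩ := (D.rep i).2 0 (D.M i).zero_mem
      have hch : ∀ x ∈ du K (((l * (g * k ^ 2) : Ideal (𝓞 K)) : FI K) * D.M i),
          ch D χ i x = cg χ (D.M i) r₀ * 1 := by
        intro x hx
        unfold ch ft
        rw [Finset.sum_eq_single r₀ (fun s hs hne => absurd (mul_cancel_rep e2 (D.rep i) hs hr₀) hne)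
          (fun hn => absurd hr₀ hn), trace_one _ hfM
            (mem_top_mul e2 _ ((D.rep i).1 r₀ hr₀)) hx]
      have := split (l * g) _ (fun _ => 1) (fun _ => cg χ (D.M i) r₀) (ch D χ i) Y hY
        (fun _ _ => hcg.2.1 r₀ ((D.rep i).1 r₀ hr₀)) (fun _ _ _ _ => rfl) hch cp H p y ω
      rw [hN1, mul_one]
      rw [hYc] at this
      exact this
  · have hgk := h.gk hk
    obtain ⟨η, hη, hc⟩ := hSG K l g k hgk χ hχ
    obtain ⟨x₀, hx₀⟩ := hGX K _ (D.M i) hf hM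
    obtain ⟨y₀, hy₀⟩ := hGX K _ _ hf hL
    obtain ⟨c, hc1, hc2, hc3⟩ := hc (D.M i) x₀ hM hx₀
    obtain ⟨X₁, hX₁, hX₁c⟩ := hRX K (l * g) (D.M i) (GM.j_ne h) hM
    refine ⟨fun y => (starRingEnd ℂ) (cq (g * k ^ 2) η
      (du K (((l * (g * k ^ 2) : Ideal (𝓞 K)) : FI K) * D.M i)) y₀ y),
      (hCC.1 K l g k hgk η hη _ y₀ hL hy₀).2, ?_⟩
    intro cp H p y ω hH hp hω
    have hfin := fin_W hTH (M := du K (((l * (g * k ^ 2) : Ideal (𝓞 K)) : FI K) * D.M i)) hL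
      (cp := cp) (y := y) hω hH hp
    have hsum : ∀ a : K → ℂ, Summable (fun x : {x : K //
        x ∈ du K (((l * (g * k ^ 2) : Ideal (𝓞 K)) : FI K) * D.M i)} =>
          a x * Wg cp H p x y ω) := by
      intro a
      refine summable_of_finite_support (hfin.subset ?_)
      intro x hx h0
      exact hx (by simp only [h0, mul_zero])
    have hb : Summable (fun x : {x : K //
        x ∈ du K (((l * (g * k ^ 2) : Ideal (𝓞 K)) : FI K) * D.M i)} =>
          ‖Wg cp H p x y ω‖) := by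
      have := (hsum fun _ => 1).norm
      simpa using this
    have hT := (hTR K l g k hgk η hη (D.M i) x₀ y₀ c (D.X i) X₁ Y hM hx₀ hy₀ hc1 hc2
      (D.rep i) hX₁ hY).2 (fun x => Wg cp H p x y ω) hb
    have hsplit : ∑' x : {x : K //
        x ∈ du K (((l * (g * k ^ 2) : Ideal (𝓞 K)) : FI K) * D.M i)},
          ch D χ i x * Wg cp H p x y ω =
        ∑ r ∈ X₁, ∑' x : {x : K //
          x ∈ du K (((l * (g * k ^ 2) : Ideal (𝓞 K)) : FI K) * D.M i)},
          ft K (D.X i) (cr K (l * g) (D.M i) (fun x => c x * cq (g * k ^ 2) η (D.M i) x₀ x) r) x *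
            Wg cp H p x y ω := by
      rw [← Summable.tsum_finsetSum (fun r _ => hsum _)]
      refine tsum_congr fun x => ?_
      rw [← Finset.sum_mul]
      congr 1
      exact ft_split (D.rep i) hX₁ _ _ hc3 x
    rw [hsplit]
    have hN0 : 0 ≤ Nf K (l * g) := by
      unfold Nf
      positivity
    calc _ ≤ (∑ r ∈ X₁, ‖∑' x : {x : K //
          x ∈ du K (((l * (g * k ^ 2) : Ideal (𝓞 K)) : FI K) * D.M i)},
          ft K (D.X i) (cr K (l * g) (D.M i) (fun x => c x * cq (g * k ^ 2) η (D.M i) x₀ x) r) x *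
            Wg cp H p x y ω‖) ^ 2 := by
          gcongr
          exact norm_sum_le _ _
      _ ≤ (X₁.card : ℝ) * _ := sq_sum_le_card_mul_sum_sq
      _ ≤ Nf K (l * g) * (Nf K (l * (g * k ^ 2)) * ∑ r ∈ Y, ‖Sq (l * g)
          (du K (((l * (g * k ^ 2) : Ideal (𝓞 K)) : FI K) * D.M i))
            (fun y => (starRingEnd ℂ) (cq (g * k ^ 2) η
              (du K (((l * (g * k ^ 2) : Ideal (𝓞 K)) : FI K) * D.M i)) y₀ y)) r cp H p y ω‖ ^ 2) := by
          rw [hX₁c]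
          exact mul_le_mul_of_nonneg_left hT hN0
      _ = _ := by ring

end

open scoped Classical in
theorem pf_BQ (hUQ : V_UQ) (hWL : V_WL) (hBS : V_BS) (hSG : V_SG) (hCC : V_CC) (hCG : U_CG)
    (hGX : Pool.Agent.H29.TC.T_GX) (hDV : Pool.Agent.H29.TC.T_DV) (hDF : Pool.Agent.H29.TC.T_DF)
    (hTR : Pool.Agent.H29.TC.T_TR) (hRX : Pool.Agent.H28.RC.T_RX)
    (hRR : Pool.Agent.H23.LB.T_RR) (hTH : Pool.Agent.H25.HK.T_TH) : V_BQ := by
  intro n hn ε κ hε hε1 hκ hκε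
  obtain ⟨C, hC0, hC⟩ := hBS n hn (ε / 2) κ (by linarith) (by linarith) hκ (by linarith)
  obtain ⟨c₀, hc₀, hc⟩ := hWL n hn
  obtain ⟨Cd, hCd⟩ := hDV n (ε / 4) (by linarith)
  refine ⟨c₀⁻¹ ^ 2 * C * Cd ^ 2 * 2 ^ n * 2 ^ n, by positivity,
    fun K _ _ hK l g k hG χ hχ D t B v hB hWt => ?_⟩
  have hf := GM.f_ne hG
  have hj := GM.j_ne hG
  have hreps : Reps K (fun i => du K (((l * (g * k ^ 2) : Ideal (𝓞 K)) : FI K) * D.M i)) :=
    (hRR K D.ι _ ((hRR K D.ι D.M D.reps).1 _ hf)).2.1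
  have hX := fun i : D.ι => hRX K (l * g)
    (du K (((l * (g * k ^ 2) : Ideal (𝓞 K)) : FI K) * D.M i)) hj (hreps.1 i)
  choose Y hY hYc using hX
  have hloc := fun i : D.ι => local_dual hSG hCC hCG hGX hDF hTR hRX hTH hG χ hχ D i (Y i)
    (hreps.1 i) (hY i) (hYc i)
  choose q hcor hq using hloc
  have hd1 := one_le_disc (K := K)
  have hj1 := one_le_Nf hj
  have hf1 := one_le_Nf hf
  have hk1 := one_le_Nf hG.k_ne
  have hD1 := one_le_dvs hDF hG.k_ne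
  obtain ⟨hX1, hX2⟩ := X_facts hK hG χ t
  have hH1 : 1 ≤ HH (Hpar (cpar χ.k χ.ν t)) := one_le_HH fun v => Hpar_one_le _ v
  have eH := Hpar_neg χ.k χ.ν t
  have hprm : Prm (cpar (-χ.k) (-χ.ν) (-t)) (Hpar (cpar χ.k χ.ν t)) := by
    have := Prm_cpar (-χ.k) (-χ.ν) (-t)
    rwa [eH] at this
  have key := hC K hK D.ι (fun i => du K (((l * (g * k ^ 2) : Ideal (𝓞 K)) : FI K) * D.M i)) hreps
    (l * g) k (dvs K k).card q Y (cpar (-χ.k) (-χ.ν) (-t))
    (Hpar (cpar χ.k χ.ν t)) _ B (Nf K (l * g) * Nf K (l * (g * k ^ 2))) v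
    (fun i => ch D χ i) false hj hG.k_ne hD1 hcor
    hY hprm hX1 hX2 hB hWt (by positivity)
    (fun i => ⟨_, fun x _ => norm_ft_le (D.X i) _
      (fun r hr => (hCG K _ χ (D.M i) hf (D.reps.1 i)).2.1 r ((D.rep i).1 r hr)) x⟩)
    (fun i p y ω hp hω => hq i _ _ p y ω (fun v => Hpar_one_le _ v)
      (fun v x hx => (hp v).elim fun B' hB' => hB'.supp x hx) hω)
  have hU := hUQ K _ hf D χ (cpar (-χ.k) (-χ.ν) (-t)) (Hpar (cpar χ.k χ.ν t)) (-t) v
    hprm (Wt_bound hWt)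
  have eT : ∀ J : NZI K, (Ideal.absNorm J.1 : ℂ) ^ (-(((-t : ℝ) : ℂ) * I : ℂ)) =
      (Ideal.absNorm J.1 : ℂ) ^ (t * I : ℂ) := by
    intro J
    congr 1
    push_cast
    ring
  simp only [eT] at hU
  have hS : ENNReal.ofReal ‖(torsionOrder K : ℂ) *
      WH K (cpar (-χ.k) (-χ.ν) (-t)) (Hpar (cpar χ.k χ.ν t)) (-χ.k) (-χ.ν) (-t) *
        ((Real.sqrt (Nf K (l * (g * k ^ 2))) : ℝ) : ℂ) *
        ∑' J : NZI K, cd D χ J.1 * v (Ideal.absNorm J.1) *
          (Ideal.absNorm J.1 : ℂ) ^ (t * I : ℂ)‖ ≤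
      ∑ i, ∫⁻ u in Fd K ×ˢ (univ : Set ℝ) ×ˢ An K,
        ENNReal.ofReal ‖∑' x : {x : K //
            x ∈ du K (((l * (g * k ^ 2) : Ideal (𝓞 K)) : FI K) * D.M i) ∧ x ≠ 0}, ch D χ i x *
          v (Ideal.absNorm (idl K (du K (((l * (g * k ^ 2) : Ideal (𝓞 K)) : FI K) * D.M i)) x)) *
            Wg (cpar (-χ.k) (-χ.ν) (-t)) (Hpar (cpar χ.k χ.ν t)) pb x
              (yM K (du K (((l * (g * k ^ 2) : Ideal (𝓞 K)) : FI K) * D.M i)) u.2.1 (zs false u.1))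
              (om false u.2.2)‖ := by
    rw [← hU]
    refine sum_int_le _ _ _ _ fun i a => ?_
    have e : (((-t : ℝ) : ℂ) * (a.2.1 : ℂ)) = (((-t) * a.2.1 : ℝ) : ℂ) := by push_cast; rfl
    rw [norm_mul, norm_mul, norm_mul (ek _ _), ec_norm, ek_norm, e,
      Complex.norm_exp_ofReal_mul_I, one_mul, one_mul, one_mul]
  have hfin := (pow_le_pow_left₀ (zero_le) hS 2).trans key
  rw [← ENNReal.ofReal_pow (norm_nonneg _)] at hfin
  have hHR : 0 ≤ (classNumber K : ℝ) * regulator K :=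
    mul_nonneg (Nat.cast_nonneg _) (regulator_pos K).le
  have hP0 : 0 ≤ (|(discr K : ℝ)| * Nf K (l * g) * Nf K k * HH (Hpar (cpar χ.k χ.ν t))) ^
      (ε / 2) := Real.rpow_nonneg (by positivity) _
  rw [ENNReal.ofReal_le_ofReal_iff (by
    have := cw_nonneg (K := K)
    positivity)] at hfin
  have hsq : 0 < Real.sqrt (Nf K (l * (g * k ^ 2))) := Real.sqrt_pos.2 (by linarith)
  rw [norm_mul, norm_mul, norm_mul, Complex.norm_natCast, Complex.norm_real,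
    Real.norm_of_nonneg hsq.le] at hfin
  have hW := hc K hK (-χ.k) (-χ.ν) (-t) (by
    have := χ.norm_zero
    simp only [Pi.neg_apply, mul_neg, Finset.sum_neg_distrib, this, neg_zero])
  rw [eH] at hW
  have hfk := Nf_fk l g k
  have := numer (B := B) hε hε1 hC0 hc₀ (one_le_tor (K := K)) (cw_le (K := K)) hsq (norm_nonneg _) hHR
    (by linarith) hd1 hj1 hk1 hH1 (one_le_Ci χ.k χ.ν t) (hCd K hK k hG.k_ne)
    (HH_le hK χ.k χ.ν t) hW (by
      rw [Real.sq_sqrt (by linarith)]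
      exact hfin)
  rw [← hfk] at this
  exact this

end Pool.Agent.H56.DW
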