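import Pool.Agent.H56.DW.BN
import Pool.Agent.H28.RC.Targets1

/-!
# BP: the bound for the first sum
-/

set_option autoImplicit false

open NumberField NumberField.InfinitePlace NumberField.Units
  NumberField.Units.dirichletUnitTheorem MeasureTheory Set Filter Complex
open scoped nonZeroDivisors ENNReal

namespace Pool.Agent.H56.DW

open Pool.Agent.H25.HK Pool.Agent.H23.LB Pool.Agent.H23.LC Pool.Agent.H29.DW
open Pool.Agent.H28.RC (Rep ft idl)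
open Pool.Agent.H29.TC (GK fk_le dvs cq LC Gn)

section

variable {K : Type} [Field K] [NumberField K]

theorem ec_norm (ν : InfinitePlace K → ℝ) (z : logSpace K) : ‖ec K ν z‖ = 1 := by
  unfold ec
  rw [← Complex.ofReal_neg]
  exact Complex.norm_exp_ofReal_mul_I _

theorem ek_norm (k : InfinitePlace K → ℤ) (θ : InfinitePlace K → ℝ) : ‖ek k θ‖ = 1 := by
  unfold ek
  rw [norm_prod]
  refine Finset.prod_eq_one fun v _ => ?_
  rw [norm_zpow, an_eq, norm_aq, one_zpow]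

theorem one_le_Nf {I : Ideal (𝓞 K)} (hI : I ≠ ⊥) : 1 ≤ Nf K I := by
  unfold Nf
  have : Ideal.absNorm I ≠ 0 := fun h => hI (Ideal.absNorm_eq_zero_iff.1 h)
  exact_mod_cast Nat.one_le_iff_ne_zero.2 this

theorem Nf_mul (I J : Ideal (𝓞 K)) : Nf K (I * J) = Nf K I * Nf K J := by
  unfold Nf
  rw [map_mul]
  push_cast
  rfl

theorem Nf_fk (l g k : Ideal (𝓞 K)) :
    Nf K (l * (g * k ^ 2)) = Nf K (l * g) * Nf K k ^ 2 := by
  rw [pow_two, Nf_mul, Nf_mul, Nf_mul, Nf_mul]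
  ring

theorem one_le_disc : 1 ≤ |(discr K : ℝ)| := by
  have h := Int.one_le_abs (discr_ne_zero K)
  exact_mod_cast h

theorem one_le_tor : (1 : ℝ) ≤ (torsionOrder K : ℝ) := by
  exact_mod_cast Nat.one_le_iff_ne_zero.2 (NeZero.ne _)

theorem cw_le : cw K ≤ (torsionOrder K : ℝ) := by
  unfold cw
  refine mul_le_of_le_one_right (by positivity) ?_
  exact inv_le_one_of_one_le₀ (one_le_pow₀ (by norm_num))

theorem cw_nonneg : 0 ≤ cw K := by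
  unfold cw
  positivity

theorem GM.f_ne {l g k : Ideal (𝓞 K)} (h : GM K l g k) : l * (g * k ^ 2) ≠ ⊥ := by
  rw [← Ideal.zero_eq_bot]
  exact mul_ne_zero h.l_ne (mul_ne_zero h.g_ne (pow_ne_zero 2 h.k_ne))

theorem GM.j_ne {l g k : Ideal (𝓞 K)} (h : GM K l g k) : l * g ≠ ⊥ := by
  rw [← Ideal.zero_eq_bot]
  exact mul_ne_zero h.l_ne h.g_ne

theorem GM.g_top {l g : Ideal (𝓞 K)} (h : GM K l g ⊤) : g = ⊤ := by
  by_contra hg
  obtain ⟨P, hP, hgP⟩ := Ideal.exists_le_maximal g hg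
  exact hP.ne_top (top_le_iff.1 ((h.rad P hP.isPrime).1 hgP))

theorem dvs_top (hDF : Pool.Agent.H29.TC.T_DF) : (dvs K (⊤ : Ideal (𝓞 K))).card = 1 := by
  rw [Finset.card_eq_one]
  refine ⟨⊤, ?_⟩
  ext e
  rw [hDF K ⊤ top_ne_bot e, Finset.mem_singleton, top_le_iff]

theorem one_le_dvs (hDF : Pool.Agent.H29.TC.T_DF) {k : Ideal (𝓞 K)} (hk : k ≠ ⊥) :
    (1 : ℝ) ≤ ((dvs K k).card : ℝ) := by
  have h : ⊤ ∈ dvs K k := (hDF K k hk ⊤).2 le_top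
  exact_mod_cast Finset.card_pos.2 ⟨_, h⟩

theorem coe_mul_mono {I J : Ideal (𝓞 K)} (h : I ≤ J) (M : FI K) : (I : FI K) * M ≤ (J : FI K) * M :=
  mul_le_mul_left ((FractionalIdeal.coeIdeal_le_coeIdeal K).2 h) M

/-- the coefficients are products of a periodic function and a function with bounded
correlations -/
theorem local_struct (hSG : V_SG) (hCC : V_CC) (hCG : U_CG) (hGX : Pool.Agent.H29.TC.T_GX)
    (hDF : Pool.Agent.H29.TC.T_DF) {l g k : Ideal (𝓞 K)} (h : GM K l g k)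
    (χ : HG K (l * (g * k ^ 2))) (hχ : PrG k χ) (M : FI K) (hM : M ≠ 0) :
    ∃ q c : K → ℂ, Cor (l * g) k M q (dvs K k).card ∧ (∀ x ∈ M, ‖c x‖ ≤ 1) ∧
      (∀ x ∈ M, ∀ t ∈ ((l * g : Ideal (𝓞 K)) : FI K) * M, c (x + t) = c x) ∧
      ∀ x ∈ M, cg χ M x = c x * q x := by
  have hf := GM.f_ne h
  by_cases hk : k = ⊤
  · subst hk
    have hl : l = ⊤ := h.triv rfl
    have hg : g = ⊤ := GM.g_top h
    subst hl hg
    have e1 : (⊤ : Ideal (𝓞 K)) * ⊤ = ⊤ := Ideal.mul_top _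
    have e2 : (⊤ : Ideal (𝓞 K)) * (⊤ * ⊤ ^ 2) = ⊤ := by
      rw [pow_two, e1, e1, e1]
    obtain ⟨-, h2, -, h4, -⟩ := hCG K _ χ M hf hM
    refine ⟨fun _ => 1, cg χ M, ?_, h2, ?_, fun x _ => (mul_one _).symm⟩
    · rw [e1, dvs_top hDF, Nat.cast_one]
      exact hCC.2 K M hM
    · intro x hx t ht
      refine h4 x hx t ?_
      rw [e2]
      rwa [e1] at ht
  · have hgk := h.gk hk
    obtain ⟨η, hη, hc⟩ := hSG K l g k hgk χ hχ
    obtain ⟨x₀, hx₀⟩ := hGX K _ M hf hM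
    obtain ⟨c, hc1, hc2, hc3⟩ := hc M x₀ hM hx₀
    have hle : ((l * g : Ideal (𝓞 K)) : FI K) * M ≤ (l : FI K) * M :=
      coe_mul_mono Ideal.mul_le_left M
    exact ⟨cq (g * k ^ 2) η M x₀, c, (hCC.1 K l g k hgk η hη M x₀ hM hx₀).1, hc1,
      fun x hx t ht => hc2 x hx t (hle ht), hc3⟩

theorem X_facts {n : ℕ} (hn : Module.finrank ℚ K = n) {l g k : Ideal (𝓞 K)} (h : GM K l g k)
    (χ : HG K (l * (g * k ^ 2))) (t : ℝ) :
    1 ≤ Real.sqrt (|(discr K : ℝ)| * Nf K (l * (g * k ^ 2)) * Ci χ.k χ.ν t) ∧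
    Real.sqrt (|(discr K : ℝ)| * Nf K (l * (g * k ^ 2)) * Ci χ.k χ.ν t) ^ 2 ≤
      3 ^ n * (|(discr K : ℝ)| * Nf K (l * g) * Nf K k ^ 2 * HH (Hpar (cpar χ.k χ.ν t)) ^ 3) := by
  have h1 := one_le_disc (K := K)
  have h2 := one_le_Nf (GM.f_ne h)
  have h3 := one_le_Ci χ.k χ.ν t
  have h4 := Ci_le hn χ.k χ.ν t χ.real_k
  have h5 : 1 ≤ |(discr K : ℝ)| * Nf K (l * (g * k ^ 2)) * Ci χ.k χ.ν t :=
    one_le_mul_of_one_le_of_one_le (one_le_mul_of_one_le_of_one_le h1 h2) h3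
  refine ⟨Real.one_le_sqrt.2 h5, ?_⟩
  rw [Real.sq_sqrt (by linarith)]
  calc |(discr K : ℝ)| * Nf K (l * (g * k ^ 2)) * Ci χ.k χ.ν t ≤
      |(discr K : ℝ)| * Nf K (l * (g * k ^ 2)) * (3 ^ n * HH (Hpar (cpar χ.k χ.ν t)) ^ 3) := by
        gcongr
    _ = _ := by
      rw [Nf_fk]
      ring

end

open scoped Classical in
theorem pf_BP (hUP : V_UP) (hWL : V_WL) (hBS : V_BS) (hSG : V_SG) (hCC : V_CC) (hCG : U_CG)
    (hGX : Pool.Agent.H29.TC.T_GX) (hDV : Pool.Agent.H29.TC.T_DV) (hDF : Pool.Agent.H29.TC.T_DF)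
    (hRX : Pool.Agent.H28.RC.T_RX) (hSY : Pool.Agent.H23.LB.T_SY) : V_BP := by
  intro n hn ε κ hε hε1 hκ hκε
  obtain ⟨C, hC0, hC⟩ := hBS n hn (ε / 2) κ (by linarith) (by linarith) hκ (by linarith)
  obtain ⟨c₀, hc₀, hc⟩ := hWL n hn
  obtain ⟨Cd, hCd⟩ := hDV n (ε / 4) (by linarith)
  refine ⟨c₀⁻¹ ^ 2 * C * Cd ^ 2 * 2 ^ n * 2 ^ n, by positivity,
    fun K _ _ hK l g k hG χ hχ t B v hB hWt => ?_⟩
  have hf := GM.f_ne hG
  have hj := GM.j_ne hG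
  obtain ⟨D⟩ := hSY K (l * (g * k ^ 2)) hf
  have hloc := fun i : D.ι => local_struct hSG hCC hCG hGX hDF hG χ hχ (D.M i) (D.reps.1 i)
  choose q c hcor hc1 hcp hcc using hloc
  have hX := fun i : D.ι => hRX K (l * g) (D.M i) hj (D.reps.1 i)
  choose X₁ hX₁ hcard using hX
  have hd1 := one_le_disc (K := K)
  have hj1 := one_le_Nf hj
  have hk1 := one_le_Nf hG.k_ne
  have hD1 := one_le_dvs hDF hG.k_ne
  obtain ⟨hX1, hX2⟩ := X_facts hK hG χ t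
  have hH1 : 1 ≤ HH (Hpar (cpar χ.k χ.ν t)) := one_le_HH fun v => Hpar_one_le _ v
  have key := hC K hK D.ι D.M D.reps (l * g) k (dvs K k).card q X₁ (cpar χ.k χ.ν t)
    (Hpar (cpar χ.k χ.ν t)) _ B (Nf K (l * g)) v (fun i => cg χ (D.M i)) true hj hG.k_ne hD1 hcor
    hX₁ (Prm_cpar _ _ _) hX1 hX2 hB hWt (by linarith)
    (fun i => ⟨1, (hCG K _ χ (D.M i) hf (D.reps.1 i)).2.1⟩)
    (fun i p y ω _ _ => by
      have := split (l * g) (D.M i) (q i) (c i) (cg χ (D.M i)) (X₁ i) (hX₁ i) (hc1 i) (hcp i)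
        (hcc i) (cpar χ.k χ.ν t) (Hpar (cpar χ.k χ.ν t)) p y ω
      rw [hcard i] at this
      exact this)
  have hU := hUP K _ hf χ D.ι D.M D.reps (cpar χ.k χ.ν t) (Hpar (cpar χ.k χ.ν t)) t v
    (Prm_cpar _ _ _) (Wt_bound hWt)
  have hS : ENNReal.ofReal ‖(torsionOrder K : ℂ) *
      WH K (cpar χ.k χ.ν t) (Hpar (cpar χ.k χ.ν t)) χ.k χ.ν t *
        ∑' J : NZI K, χ.ψ J.1 * v (Ideal.absNorm J.1) *
          (Ideal.absNorm J.1 : ℂ) ^ (-(t * I : ℂ))‖ ≤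
      ∑ i, ∫⁻ u in Fd K ×ˢ (univ : Set ℝ) ×ˢ An K,
        ENNReal.ofReal ‖∑' x : {x : K // x ∈ D.M i ∧ x ≠ 0}, cg χ (D.M i) x *
          v (Ideal.absNorm (idl K (D.M i) x)) *
            Wg (cpar χ.k χ.ν t) (Hpar (cpar χ.k χ.ν t)) pb x (yM K (D.M i) u.2.1 (zs true u.1))
              (om true u.2.2)‖ := by
    rw [← hU]
    refine sum_int_le _ _ _ _ fun i a => ?_
    have e : ((t : ℂ) * (a.2.1 : ℂ)) = ((t * a.2.1 : ℝ) : ℂ) := by push_cast; rfl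
    rw [norm_mul, norm_mul, norm_mul (ek _ _), ec_norm, ek_norm, e,
      Complex.norm_exp_ofReal_mul_I, one_mul, one_mul, one_mul]
  have hfin := (pow_le_pow_left₀ (zero_le) hS 2).trans key
  rw [← ENNReal.ofReal_pow (norm_nonneg _)] at hfin
  have hHR : 0 ≤ (classNumber K : ℝ) * regulator K :=
    mul_nonneg (Nat.cast_nonneg _) (regulator_pos K).le
  have hP0 : 0 ≤ (|(discr K : ℝ)| * Nf K (l * g) * Nf K k * HH (Hpar (cpar χ.k χ.ν t))) ^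
      (ε / 2) := Real.rpow_nonneg (by positivity) _
  rw [ENNReal.ofReal_le_ofReal_iff (by
    have := cw_nonneg (K := K)
    positivity)] at hfin
  have hnorm : ‖(torsionOrder K : ℂ) *
      WH K (cpar χ.k χ.ν t) (Hpar (cpar χ.k χ.ν t)) χ.k χ.ν t *
        ∑' J : NZI K, χ.ψ J.1 * v (Ideal.absNorm J.1) *
          (Ideal.absNorm J.1 : ℂ) ^ (-(t * I : ℂ))‖ = (torsionOrder K : ℝ) *
      ‖WH K (cpar χ.k χ.ν t) (Hpar (cpar χ.k χ.ν t)) χ.k χ.ν t‖ * 1 *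
        ‖∑' J : NZI K, χ.ψ J.1 * v (Ideal.absNorm J.1) *
          (Ideal.absNorm J.1 : ℂ) ^ (-(t * I : ℂ))‖ := by
    rw [norm_mul, norm_mul, Complex.norm_natCast, mul_one]
  rw [hnorm] at hfin
  rw [Nf_fk]
  refine numer hε hε1 hC0 hc₀ (one_le_tor (K := K)) (cw_le (K := K)) one_pos (norm_nonneg _) hHR
    (by linarith) hd1 hj1 hk1 hH1 (one_le_Ci χ.k χ.ν t) (hCd K hK k hG.k_ne)
    (HH_le hK χ.k χ.ν t) (hc K hK χ.k χ.ν t χ.norm_zero) ?_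
  rw [one_pow, mul_one (Nf K (l * g))]
  exact hfin

end Pool.Agent.H56.DW
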