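import Pool.Agent.H29.DW.Targets
import Pool.Agent.H65.GLA.MV

/-!
# PT: products of theta functions of two ideal lattices of different shapes
-/

set_option autoImplicit false

open NumberField NumberField.InfinitePlace NumberField.Units
  NumberField.Units.dirichletUnitTheorem MeasureTheory Set Filter Complex
open scoped nonZeroDivisors ENNReal

namespace Pool.Agent.H56.DW

open Pool.Agent.H25.HK Pool.Agent.H23.LB Pool.Agent.H23.LC Pool.Agent.H29.DW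

theorem AK_nonneg {K : Type} [Field K] [NumberField K] (hFP : Pool.Agent.H23.LB.T_FP) (κ : ℝ)
    (M : FI K) (hM : M ≠ 0) (z : logSpace K) : 0 ≤ AK K κ M z := by
  unfold AK
  refine setIntegral_nonneg measurableSet_Ioi fun T hT => ?_
  have h1 := (((hFP K M hM).2.2.1 z T hT).1)
  exact mul_nonneg (by linarith) (Real.rpow_nonneg (le_of_lt hT) _)

theorem du_ne {K : Type} [Field K] [NumberField K] (M : FI K) (hM : M ≠ 0) : du K M ≠ 0 := by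
  unfold du
  exact FractionalIdeal.dual_ne_zero ℤ ℚ hM

/-- the numerical part -/
theorem num {c X κ V₁ V₂ A A₁ F₁ F₂ : ℝ} (hc : 0 ≤ c) (hV₁ : 0 < V₁) (hV₂ : 0 < V₂)
    (hF₁ : 1 ≤ F₁) (hF₂ : 1 ≤ F₂) (hA₁ : 0 ≤ A₁) (hA : A₁ ≤ 2 * A) (hκ : 0 < κ)
    (hX : X = V₁ / V₂ + V₂ / V₁)
    (h1 : V₂ ≤ V₁ → (F₁ - 1) * F₂ ≤
      c * ((V₁ / V₂) ^ κ * (V₁ + V₁ ^ 2 / (V₁ / V₂))) * A)
    (h2 : V₁ ≤ V₂ → (F₂ - 1) * F₁ ≤
      c * ((V₂ / V₁) ^ κ * (V₂ + V₂ ^ 2 / (V₂ / V₁))) * A)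
    (h3 : (F₁ - 1) * F₁ ≤ c * ((1 : ℝ) ^ κ * (V₁ + V₁ ^ 2 / 1)) * A₁) :
    (F₁ - 1) * F₂ ≤ 3 * c * X ^ κ * (V₁ + V₂ + V₁ * V₂) * A := by
  have hA0 : 0 ≤ A := by linarith
  have q1 : 0 < V₁ / V₂ := div_pos hV₁ hV₂
  have q2 : 0 < V₂ / V₁ := div_pos hV₂ hV₁
  have hX0 : 0 < X := by rw [hX]; positivity
  have hXk : 0 < X ^ κ := Real.rpow_pos_of_pos hX0 _
  have e1 : V₁ ^ 2 / (V₁ / V₂) = V₁ * V₂ := by field_simp
  have e2 : V₂ ^ 2 / (V₂ / V₁) = V₁ * V₂ := by field_simp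
  rw [e1] at h1
  rw [e2] at h2
  have k1 : (V₁ / V₂) ^ κ ≤ X ^ κ :=
    Real.rpow_le_rpow q1.le (by rw [hX]; linarith) hκ.le
  have k2 : (V₂ / V₁) ^ κ ≤ X ^ κ :=
    Real.rpow_le_rpow q2.le (by rw [hX]; linarith) hκ.le
  have hVV : 0 < V₁ * V₂ := mul_pos hV₁ hV₂
  have bnd : ∀ u v : ℝ, 0 ≤ u → u ≤ X ^ κ → 0 ≤ v → v ≤ V₁ + V₂ + V₁ * V₂ →
      c * (u * v) * A ≤ c * X ^ κ * (V₁ + V₂ + V₁ * V₂) * A := by
    intro u v hu hu' hv hv'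
    have : u * v ≤ X ^ κ * (V₁ + V₂ + V₁ * V₂) := mul_le_mul hu' hv' hv hXk.le
    calc c * (u * v) * A ≤ c * (X ^ κ * (V₁ + V₂ + V₁ * V₂)) * A := by gcongr
      _ = _ := by ring
  have hB0 : 0 ≤ c * X ^ κ * (V₁ + V₂ + V₁ * V₂) * A := by positivity
  rcases le_total V₂ V₁ with h | h
  · have := bnd _ (V₁ + V₁ * V₂) (Real.rpow_nonneg q1.le κ) k1 (by positivity) (by linarith)
    have := h1 h
    nlinarith
  · have hX1 : 1 ≤ X ^ κ := by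
      apply Real.one_le_rpow _ hκ.le
      rw [hX]
      have : 1 ≤ V₂ / V₁ := (one_le_div hV₁).2 h
      linarith
    have t2 := bnd _ (V₂ + V₁ * V₂) (Real.rpow_nonneg q2.le κ) k2 (by positivity) (by linarith)
    have t1 := h2 h
    have t3 : c * ((1 : ℝ) ^ κ * (V₁ + V₁ ^ 2 / 1)) * A₁ ≤
        2 * (c * X ^ κ * (V₁ + V₂ + V₁ * V₂) * A) := by
      rw [Real.one_rpow, div_one, one_mul]
      have h4 : V₁ ^ 2 ≤ V₁ * V₂ := by nlinarith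
      have h5 : c * (V₁ + V₁ ^ 2) * A₁ ≤ c * (1 * (V₁ + V₁ * V₂)) * (2 * A) := by
        rw [one_mul]
        gcongr
      have h6 := bnd 1 (V₁ + V₁ * V₂) zero_le_one hX1 (by positivity) (by linarith)
      nlinarith
    have t4 : F₁ - 1 ≤ (F₁ - 1) * F₁ := by nlinarith
    nlinarith

open scoped Classical in
theorem pf_PT (hPW : U_PW) (hNS : Pool.Agent.H23.LB.T_NS) (hFP : Pool.Agent.H23.LB.T_FP) :
    V_PT := by
  intro n hn κ hκ hκ1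
  obtain ⟨C, hC0, hC⟩ := hPW n hn
  have hc0 : 0 ≤ C * κ ^ (-2 : ℝ) := mul_nonneg hC0 (Real.rpow_nonneg hκ.le _)
  refine ⟨3 * (C * κ ^ (-2 : ℝ)), by positivity, fun K _ _ hK L₁ L₂ z₁ z₂ V₁ V₂ hL₁ hL₂ hV₁ hV₂ => ?_⟩
  obtain ⟨P, hP, hPd, hPT⟩ := hNS K L₁ z₁ hL₁
  obtain ⟨Q, hQ, hQd, hQT⟩ := hNS K L₂ z₂ hL₂
  have hcard : Fintype.card (mixedEmbedding.index K) = n := by
    rw [Pool.Agent.H65.GLA.card_index, hK]
  have AP : AF κ P = AK K κ L₁ z₁ := by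
    unfold AF AK
    exact setIntegral_congr_fun measurableSet_Ioi fun T hT => by
      simp only [(hPT T hT).1]
  have APi : AF κ P⁻¹ = AK K κ (du K L₁) (-z₁) := by
    unfold AF AK
    exact setIntegral_congr_fun measurableSet_Ioi fun T hT => by
      simp only [(hPT T hT).2]
  have AQ : AF κ Q = AK K κ L₂ z₂ := by
    unfold AF AK
    exact setIntegral_congr_fun measurableSet_Ioi fun T hT => by
      simp only [(hQT T hT).1]
  have AQi : AF κ Q⁻¹ = AK K κ (du K L₂) (-z₂) := by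
    unfold AF AK
    exact setIntegral_congr_fun measurableSet_Ioi fun T hT => by
      simp only [(hQT T hT).2]
  have a1 := AK_nonneg hFP κ L₁ hL₁ z₁
  have a2 := AK_nonneg hFP κ _ (du_ne L₁ hL₁) (-z₁)
  have a3 := AK_nonneg hFP κ L₂ hL₂ z₂
  have a4 := AK_nonneg hFP κ _ (du_ne L₂ hL₂) (-z₂)
  have f1 : 1 ≤ FT K L₁ z₁ (1 / V₁) := ((hFP K L₁ hL₁).2.2.1 z₁ _ (by positivity)).1
  have f2 : 1 ≤ FT K L₂ z₂ (1 / V₂) := ((hFP K L₂ hL₂).2.2.1 z₂ _ (by positivity)).1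
  have eP : Fs P (1 / V₁) = FT K L₁ z₁ (1 / V₁) := (hPT _ (by positivity)).1
  have eQ : Fs Q (1 / V₂) = FT K L₂ z₂ (1 / V₂) := (hQT _ (by positivity)).1
  refine num (A₁ := AK K κ L₁ z₁ + AK K κ (du K L₁) (-z₁) + AK K κ L₁ z₁ + AK K κ (du K L₁) (-z₁))
    hc0 hV₁ hV₂ f1 f2 (by linarith) (by linarith) hκ rfl (fun h => ?_) (fun h => ?_) ?_
  · have key := hC κ hκ hκ1 _ P Q hP hQ hPd hQd hcard (V₁ / V₂) V₁
      ((one_le_div hV₂).2 h) hV₁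
    have e : V₁ / V₂ / V₁ = 1 / V₂ := by field_simp
    rw [AP, APi, AQ, AQi, e, eP, eQ] at key
    exact key
  · have key := hC κ hκ hκ1 _ Q P hQ hP hQd hPd hcard (V₂ / V₁) V₂
      ((one_le_div hV₁).2 h) hV₂
    have e : V₂ / V₁ / V₂ = 1 / V₁ := by field_simp
    rw [AP, APi, AQ, AQi, e, eP, eQ] at key
    calc _ ≤ _ := key
      _ = _ := by ring
  · have key := hC κ hκ hκ1 _ P P hP hP hPd hPd hcard 1 V₁ le_rfl hV₁
    rw [AP, APi, eP] at key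
    exact key

end Pool.Agent.H56.DW
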