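import Pool.Agent.H29.DW.Tools

/-!
# Tools for the bounds BP and BQ
-/

set_option autoImplicit false

open NumberField NumberField.InfinitePlace NumberField.Units
  NumberField.Units.dirichletUnitTheorem MeasureTheory Set Filter Complex
open scoped nonZeroDivisors ENNReal

namespace Pool.Agent.H56.DW

open Pool.Agent.H25.HK Pool.Agent.H23.LB Pool.Agent.H23.LC Pool.Agent.H29.DW
open Pool.Agent.H28.RC (Rep ft idl)
open Pool.Agent.H29.TC (GK fk_le dvs cq LC Gn)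

section split

variable {K : Type} [Field K] [NumberField K]

theorem norm_ci_le (j : Ideal (𝓞 K)) (M : FI K) (r x : K) : ‖ci K j M r x‖ ≤ 1 := by
  unfold ci
  split_ifs <;> simp

open scoped Classical in
/-- a sum over `M` with coefficients `c q`, `c` periodic, by Cauchy-Schwarz -/
theorem split (j : Ideal (𝓞 K)) (M : FI K) (q c cc : K → ℂ) (X₁ : Finset K)
    (hX : Rep K j M X₁) (hc1 : ∀ x ∈ M, ‖c x‖ ≤ 1)
    (hcp : ∀ x ∈ M, ∀ t ∈ (j : FI K) * M, c (x + t) = c x)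
    (hcc : ∀ x ∈ M, cc x = c x * q x) (cp : InfinitePlace K → ℂ) (H : InfinitePlace K → ℝ)
    (p : InfinitePlace K → ℂ → ℂ) (y : InfinitePlace K → ℝ) (ω : InfinitePlace K → ℂ) :
    ‖∑' x : {x : K // x ∈ M}, cc x * Wg cp H p x y ω‖ ^ 2 ≤
      (X₁.card : ℝ) * ∑ r ∈ X₁, ‖Sq j M q r cp H p y ω‖ ^ 2 := by
  by_cases hs : Summable (fun x : {x : K // x ∈ M} => cc x * Wg cp H p x y ω)
  · have hterm : ∀ r ∈ X₁, (fun x : {x : K // x ∈ M} =>
        c r * (ci K j M r x * q x * Wg cp H p x y ω)) =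
        Set.indicator {x : {x : K // x ∈ M} | (x : K) - r ∈ (j : FI K) * M}
          (fun x => cc x * Wg cp H p x y ω) := by
      intro r hr
      funext x
      by_cases hx : (x : K) - r ∈ (j : FI K) * M
      · rw [Set.indicator_of_mem (show x ∈ {x : {x : K // x ∈ M} | (x : K) - r ∈ (j : FI K) * M}
          from hx), hcc _ x.2]
        have h1 : c x = c r := by
          have h2 := hcp r (hX.1 r hr) _ hx
          rwa [add_sub_cancel] at h2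
        unfold ci
        rw [if_pos hx, h1]
        ring
      · rw [Set.indicator_of_notMem (show x ∉ {x : {x : K // x ∈ M} | (x : K) - r ∈ (j : FI K) * M}
          from hx)]
        unfold ci
        rw [if_neg hx]
        ring
    have hsr : ∀ r ∈ X₁, Summable (fun x : {x : K // x ∈ M} =>
        c r * (ci K j M r x * q x * Wg cp H p x y ω)) := by
      intro r hr
      rw [hterm r hr]
      exact hs.indicator _
    have h1 : (fun x : {x : K // x ∈ M} => cc x * Wg cp H p x y ω) =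
        fun x : {x : K // x ∈ M} => ∑ r ∈ X₁, c r * (ci K j M r x * q x * Wg cp H p x y ω) := by
      funext x
      obtain ⟨r₀, ⟨hr₀, hr₀'⟩, hu⟩ := hX.2 x x.2
      rw [Finset.sum_eq_single r₀]
      · have h2 := congrFun (hterm r₀ hr₀) x
        rw [h2, Set.indicator_of_mem (show x ∈ {x : {x : K // x ∈ M} |
          (x : K) - r₀ ∈ (j : FI K) * M} from hr₀')]
      · intro r hr hne
        have h3 : ¬ (x : K) - r ∈ (j : FI K) * M := fun h => hne (hu r ⟨hr, h⟩)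
        unfold ci
        rw [if_neg h3]
        ring
      · intro h
        exact absurd hr₀ h
    have h2 : ∑' x : {x : K // x ∈ M}, cc x * Wg cp H p x y ω =
        ∑ r ∈ X₁, c r * Sq j M q r cp H p y ω := by
      rw [h1, Summable.tsum_finsetSum hsr]
      refine Finset.sum_congr rfl fun r _ => ?_
      rw [tsum_mul_left]
      rfl
    rw [h2]
    have h3 : ‖∑ r ∈ X₁, c r * Sq j M q r cp H p y ω‖ ≤
        ∑ r ∈ X₁, ‖Sq j M q r cp H p y ω‖ := by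
      refine (norm_sum_le _ _).trans (Finset.sum_le_sum fun r hr => ?_)
      rw [norm_mul]
      exact mul_le_of_le_one_left (norm_nonneg _) (hc1 r (hX.1 r hr))
    calc _ ≤ (∑ r ∈ X₁, ‖Sq j M q r cp H p y ω‖) ^ 2 := by gcongr
      _ ≤ _ := sq_sum_le_card_mul_sum_sq
  · rw [tsum_eq_zero_of_not_summable hs, norm_zero, zero_pow two_ne_zero]
    positivity

end split

/-- the decay of the weights -/
theorem Wt_bound {κ X B : ℝ} {v : ℝ → ℂ} (h : Wt κ X B v) :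
    ∃ C : ℝ, ∀ x : ℝ, 1 ≤ x → ‖v x‖ ≤ C * x ^ (-(3 / 2) : ℝ) := by
  obtain ⟨g, hgm, hg, hv⟩ := h 1 (Or.inr rfl)
  have hi : Integrable (fun y : ℝ => Real.exp (-(1 / 4) * y ^ 2)) :=
    integrable_exp_neg_mul_sq (by norm_num)
  refine ⟨B * X ^ (1 : ℝ) * ∫ y : ℝ, Real.exp (-(1 / 4) * y ^ 2), fun x hx => ?_⟩
  have hx0 : 0 < x := by linarith
  rw [hv x hx0]
  have h1 : ∀ y : ℝ, ‖g y * (x : ℂ) ^ (-(1 / 2 + (1 : ℝ) + y * I : ℂ))‖ ≤
      (B * X ^ (1 : ℝ) * x ^ (-(3 / 2) : ℝ)) * Real.exp (-(1 / 4) * y ^ 2) := by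
    intro y
    have h2 : (-(1 / 2 + (1 : ℝ) + y * I : ℂ)).re = -(3 / 2) := by
      simp
      norm_num
    rw [norm_mul, Complex.norm_cpow_eq_rpow_re_of_pos hx0, h2]
    have h3 := hg y
    have e : -y ^ 2 / 4 = -(1 / 4) * y ^ 2 := by ring
    rw [e] at h3
    calc _ ≤ (B * X ^ (1 : ℝ) * Real.exp (-(1 / 4) * y ^ 2)) * x ^ (-(3 / 2) : ℝ) := by
          gcongr
      _ = _ := by ring
  have h4 := norm_integral_le_of_norm_le (hi.const_mul (B * X ^ (1 : ℝ) * x ^ (-(3 / 2) : ℝ)))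
    (Filter.Eventually.of_forall h1)
  calc _ ≤ _ := h4
    _ = _ := by
      rw [integral_const_mul]
      ring

/-- sums of integrals -/
theorem sum_int_le {ι α : Type} [Fintype ι] [MeasurableSpace α] (μ : Measure α) (S : Set α)
    (F : ι → α → ℂ) (G : ι → α → ℝ) (h : ∀ c a, ‖F c a‖ = G c a) :
    ENNReal.ofReal ‖∑ c, ∫ p in S, F c p ∂μ‖ ≤
      ∑ c, ∫⁻ p in S, ENNReal.ofReal (G c p) ∂μ := by
  rw [ofReal_norm]
  refine (enorm_sum_le _ _).trans (Finset.sum_le_sum fun c _ => ?_)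
  refine (enorm_integral_le_lintegral_enorm _).trans (le_of_eq ?_)
  refine lintegral_congr fun a => ?_
  rw [← ofReal_norm, h]

/-- the numerical part -/
theorem numer {n : ℕ} {ε C Cd c₀ w W s T B hR cv' dv d j k H Ci : ℝ} (hε : 0 < ε) (hε1 : ε ≤ 1)
    (hC : 0 ≤ C) (hc₀ : 0 < c₀) (hw : 1 ≤ w) (hcv : cv' ≤ w)
    (hs : 0 < s) (hT : 0 ≤ T) (hR0 : 0 ≤ hR) (hdv : 0 ≤ dv) (hd : 1 ≤ d) (hj : 1 ≤ j) (hk : 1 ≤ k)
    (hH : 1 ≤ H) (hCi : 1 ≤ Ci) (hdvk : dv ≤ Cd * k ^ (ε / 4)) (hHC : H ≤ 2 ^ n * Ci ^ (1 / 3 : ℝ))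
    (hW : c₀ * H⁻¹ ≤ W)
    (h : (w * W * s * T) ^ 2 ≤ C * B ^ 2 * (j * s ^ 2) * hR * cv' * (dv * dv) *
      (d * j * k * H) ^ (ε / 2) * H⁻¹ * (1 + k / j)) :
    T ^ 2 ≤ (c₀⁻¹ ^ 2 * C * Cd ^ 2 * 2 ^ n * 2 ^ n) * B ^ 2 * (d * (j * k ^ 2) * Ci) ^ ε *
      (hR * (j + k) * Ci ^ (1 / 3 : ℝ)) := by
  have hH0 : 0 < H := by linarith
  have hj0 : 0 < j := by linarith
  have hk0 : 0 < k := by linarith
  have hd0 : 0 < d := by linarith
  have hw0 : 0 < w := by linarith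
  have hCi0 : 0 < Ci := by linarith
  have hP0 : 0 ≤ (d * j * k * H) ^ (ε / 2) := Real.rpow_nonneg (by positivity) _
  have hC3 : 0 < Ci ^ (1 / 3 : ℝ) := Real.rpow_pos_of_pos hCi0 _
  -- divide
  have h1 : (w * (c₀ * H⁻¹) * s * T) ^ 2 ≤ (w * W * s * T) ^ 2 := by
    have : 0 < c₀ * H⁻¹ := by positivity
    gcongr
  have h2 : C * B ^ 2 * (j * s ^ 2) * hR * cv' * (dv * dv) *
      (d * j * k * H) ^ (ε / 2) * H⁻¹ * (1 + k / j) ≤
      C * B ^ 2 * (j * s ^ 2) * hR * w ^ 2 * (dv * dv) *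
      (d * j * k * H) ^ (ε / 2) * H⁻¹ * (1 + k / j) := by
    have : cv' ≤ w ^ 2 := by nlinarith
    gcongr
  have h3 := (h1.trans h).trans h2
  have h4 : T ^ 2 ≤ c₀⁻¹ ^ 2 * (C * B ^ 2 * hR * (dv * dv) * (d * j * k * H) ^ (ε / 2) * H *
      (j + k)) := by
    have e1 : (w * (c₀ * H⁻¹) * s * T) ^ 2 = (w ^ 2 * c₀ ^ 2 * H⁻¹ ^ 2 * s ^ 2) * T ^ 2 := by ring
    have e2 : C * B ^ 2 * (j * s ^ 2) * hR * w ^ 2 * (dv * dv) *
      (d * j * k * H) ^ (ε / 2) * H⁻¹ * (1 + k / j) = (w ^ 2 * c₀ ^ 2 * H⁻¹ ^ 2 * s ^ 2) *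
        (c₀⁻¹ ^ 2 * (C * B ^ 2 * hR * (dv * dv) * (d * j * k * H) ^ (ε / 2) * H *
      (j + k))) := by
      field_simp
    rw [e1, e2] at h3
    exact le_of_mul_le_mul_left h3 (by positivity)
  have hCd : 0 ≤ Cd := by
    by_contra hneg
    have h5 : 0 < k ^ (ε / 4) := Real.rpow_pos_of_pos hk0 _
    have : Cd * k ^ (ε / 4) < 0 := mul_neg_of_neg_of_pos (not_le.1 hneg) h5
    linarith
  have h5 : dv * dv ≤ Cd ^ 2 * k ^ (ε / 2) := by
    have e : k ^ (ε / 2) = k ^ (ε / 4) * k ^ (ε / 4) := by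
      rw [← Real.rpow_add hk0]
      congr 1
      ring
    rw [e]
    calc dv * dv ≤ (Cd * k ^ (ε / 4)) * (Cd * k ^ (ε / 4)) := by gcongr
      _ = _ := by ring
  have h6 : k ^ (ε / 2) * (d * j * k * H) ^ (ε / 2) ≤ 2 ^ n * (d * (j * k ^ 2) * Ci) ^ ε := by
    have e1 : k ^ (ε / 2) * (d * j * k * H) ^ (ε / 2) = (d * (j * k ^ 2) * H) ^ (ε / 2) := by
      rw [← Real.mul_rpow hk0.le (by positivity)]
      congr 1
      ring
    have e2 : d * (j * k ^ 2) * H ≤ 2 ^ n * (d * (j * k ^ 2) * Ci) := by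
      have : Ci ^ (1 / 3 : ℝ) ≤ Ci := by
        conv_rhs => rw [← Real.rpow_one Ci]
        exact Real.rpow_le_rpow_of_exponent_le hCi (by norm_num)
      have : H ≤ 2 ^ n * Ci := hHC.trans (by gcongr)
      calc d * (j * k ^ 2) * H ≤ d * (j * k ^ 2) * (2 ^ n * Ci) := by gcongr
        _ = _ := by ring
    have hY1 : 1 ≤ d * (j * k ^ 2) * Ci := by
      have a1 : 1 ≤ k ^ 2 := one_le_pow₀ hk
      have a2 : 1 ≤ j * k ^ 2 := one_le_mul_of_one_le_of_one_le hj a1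
      have a3 : 1 ≤ d * (j * k ^ 2) := one_le_mul_of_one_le_of_one_le hd a2
      exact one_le_mul_of_one_le_of_one_le a3 hCi
    rw [e1]
    calc (d * (j * k ^ 2) * H) ^ (ε / 2) ≤ (2 ^ n * (d * (j * k ^ 2) * Ci)) ^ (ε / 2) :=
          Real.rpow_le_rpow (by positivity) e2 (by linarith)
      _ = ((2 : ℝ) ^ n) ^ (ε / 2) * (d * (j * k ^ 2) * Ci) ^ (ε / 2) :=
          Real.mul_rpow (by positivity) (by positivity)
      _ ≤ ((2 : ℝ) ^ n) ^ (1 : ℝ) * (d * (j * k ^ 2) * Ci) ^ ε := by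
          apply mul_le_mul
          · exact Real.rpow_le_rpow_of_exponent_le (one_le_pow₀ (by norm_num)) (by linarith)
          · exact Real.rpow_le_rpow_of_exponent_le hY1 (by linarith)
          · positivity
          · positivity
      _ = _ := by rw [Real.rpow_one]
  have hB2 : 0 ≤ B ^ 2 := sq_nonneg B
  have hY0 : 0 ≤ (d * (j * k ^ 2) * Ci) ^ ε := Real.rpow_nonneg (by positivity) _
  calc T ^ 2 ≤ c₀⁻¹ ^ 2 * (C * B ^ 2 * hR * (dv * dv) * (d * j * k * H) ^ (ε / 2) * H *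
      (j + k)) := h4
    _ ≤ c₀⁻¹ ^ 2 * (C * B ^ 2 * hR * (Cd ^ 2 * k ^ (ε / 2)) * (d * j * k * H) ^ (ε / 2) *
        (2 ^ n * Ci ^ (1 / 3 : ℝ)) * (j + k)) := by
        gcongr
    _ = c₀⁻¹ ^ 2 * C * Cd ^ 2 * 2 ^ n * B ^ 2 * (k ^ (ε / 2) * (d * j * k * H) ^ (ε / 2)) *
        (hR * (j + k) * Ci ^ (1 / 3 : ℝ)) := by ring
    _ ≤ c₀⁻¹ ^ 2 * C * Cd ^ 2 * 2 ^ n * B ^ 2 * (2 ^ n * (d * (j * k ^ 2) * Ci) ^ ε) *
        (hR * (j + k) * Ci ^ (1 / 3 : ℝ)) := by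
        gcongr
    _ = _ := by ring

end Pool.Agent.H56.DW
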